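import Pool.Agent.H84.NT.Targets3

/-!
# Module BLK: deterministic consequences of the greedy bound
-/

open MeasureTheory ProbabilityTheory
open scoped ENNReal

namespace Pool.Agent.H84.NT

open Pool.Agent.H99.NS Pool.Agent.H22.LPP Pool.Agent.H95.INS

theorem blk_parS (q θ : ℝ) (b : ℕ) (s : ℤ) (g : ℤ → ℤ) :
    parS q θ (s, g s) (s + 64 ^ (b + 1), g (s + 64 ^ (b + 1))) =
      mu q * 64 ^ (b + 1) - θ * (sg q / 128) *
        (((g (s + 64 ^ (b + 1)) - g s : ℤ) : ℝ) ^ 2 / 256 ^ b) * 4 ^ b := by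
  have e1 : (256 : ℝ) ^ b = 64 ^ b * 4 ^ b := by rw [← mul_pow]; norm_num
  have h1 : (0 : ℝ) < 64 ^ b := by positivity
  have h2 : (0 : ℝ) < 4 ^ b := by positivity
  unfold parS dt dx
  simp only
  push_cast
  rw [e1, pow_succ]
  have e2 : (s : ℝ) + 64 ^ b * 64 - s = 64 ^ b * 64 := by ring
  rw [e2]
  field_simp
  ring

theorem blk_one (q : ℝ) (b : ℕ) (ω : Env) (s : ℤ) (g : ℤ → ℤ) :
    wt ω s (s + 64 ^ (b + 1)) g ≤ mu q * 64 ^ (b + 1) - 3 * sg q / 512 *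
      (((g (s + 64 ^ (b + 1)) - g s : ℤ) : ℝ) ^ 2 / 256 ^ b) * 4 ^ b +
        4 ^ b * exl q b ω s g := by
  have h2 : (0 : ℝ) < 4 ^ b := by positivity
  have h := le_max_right (0 : ℝ) ((wt ω s (s + 64 ^ (b + 1)) g -
    parS q (3 / 4) (s, g s) (s + 64 ^ (b + 1), g (s + 64 ^ (b + 1)))) / 4 ^ b)
  have h3 : (wt ω s (s + 64 ^ (b + 1)) g -
    parS q (3 / 4) (s, g s) (s + 64 ^ (b + 1), g (s + 64 ^ (b + 1)))) / 4 ^ b ≤
      exl q b ω s g := h
  rw [div_le_iff₀ h2, blk_parS] at h3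
  nlinarith [h3]

theorem sb_succ (s0 : ℤ) (b l : ℕ) : sb s0 b (l + 1) = sb s0 b l + 64 ^ (b + 1) := by
  unfold sb; push_cast; ring

theorem sb_eq (s0 : ℤ) (b l : ℕ) : sb s0 b l = s0 + l * 64 ^ (b + 1) := rfl

theorem blk_sum (ω : Env) (s0 : ℤ) (b n : ℕ) (g : ℤ → ℤ) :
    wt ω s0 (s0 + n * 64 ^ (b + 1)) g =
      ∑ l ∈ Finset.range n, wt ω (sb s0 b l) (sb s0 b l + 64 ^ (b + 1)) g := by
  induction n with
  | zero => simp [wt]
  | succ n ih =>
    rw [Finset.sum_range_succ, ← ih, ← sb_succ]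
    have e : s0 + ((n + 1 : ℕ) : ℤ) * 64 ^ (b + 1) = sb s0 b (n + 1) := rfl
    have e' : s0 + ((n : ℕ) : ℤ) * 64 ^ (b + 1) = sb s0 b n := rfl
    rw [e, e']
    refine wt_add ω ?_ ?_ g
    · rw [sb_eq]
      have : (0 : ℤ) ≤ n * 64 ^ (b + 1) := by positivity
      omega
    · rw [sb_succ]
      have : (0 : ℤ) < 64 ^ (b + 1) := by positivity
      omega

theorem blk_dwi (p : ℤ) (b : ℕ) (s : ℤ) (g : ℤ → ℤ) :
    ((dwi p b s g : ℤ) : ℝ) ^ 2 ≤
      2 * (((g (s + 64 ^ (b + 1)) - g s : ℤ) : ℝ) ^ 2 / 256 ^ b) + 2 := by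
  have key : ∀ y : ℤ, (16 : ℝ) ^ b * (wi p b y : ℝ) ≤ y - p ∧
      (y : ℝ) - p < 16 ^ b * ((wi p b y : ℝ) + 1) := by
    intro y
    have hp : (0 : ℤ) < 16 ^ b := by positivity
    have h1 : 16 ^ b * wi p b y ≤ y - p := Int.mul_ediv_self_le hp.ne'
    have h2 : y - p < 16 ^ b * (wi p b y + 1) := by
      have := Int.lt_mul_ediv_self_add (x := y - p) hp
      unfold wi; linarith
    constructor
    · exact_mod_cast h1
    · exact_mod_cast h2
  obtain ⟨a1, a2⟩ := key (g (s + 64 ^ (b + 1)))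
  obtain ⟨b1, b2⟩ := key (g s)
  have h16 : (0 : ℝ) < 16 ^ b := by positivity
  have e1 : (256 : ℝ) ^ b = (16 ^ b) ^ 2 := by rw [← pow_mul, mul_comm, pow_mul]; norm_num
  set d : ℝ := ((g (s + 64 ^ (b + 1)) - g s : ℤ) : ℝ) / 16 ^ b with hd
  have hd2 : ((g (s + 64 ^ (b + 1)) - g s : ℤ) : ℝ) ^ 2 / 256 ^ b = d ^ 2 := by
    rw [hd, div_pow, e1]
  rw [hd2]
  have hdd : ((g (s + 64 ^ (b + 1)) - g s : ℤ) : ℝ) = 16 ^ b * d := by
    rw [hd]; field_simp
  push_cast at hdd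
  have hD : ((dwi p b s g : ℤ) : ℝ) = (wi p b (g (s + 64 ^ (b + 1))) : ℝ) - wi p b (g s) := by
    unfold dwi; push_cast; ring
  rw [hD]
  have c1 : (16 : ℝ) ^ b * ((wi p b (g (s + 64 ^ (b + 1))) : ℝ) - wi p b (g s) - d) <
      16 ^ b * 1 := by nlinarith
  have c2 : (16 : ℝ) ^ b * (d - ((wi p b (g (s + 64 ^ (b + 1))) : ℝ) - wi p b (g s))) <
      16 ^ b * 1 := by nlinarith
  have c1' := lt_of_mul_lt_mul_left c1 h16.le
  have c2' := lt_of_mul_lt_mul_left c2 h16.le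
  set D : ℝ := (wi p b (g (s + 64 ^ (b + 1))) : ℝ) - wi p b (g s) with hDD
  have c3 : (D - d) ^ 2 ≤ 1 := by nlinarith
  nlinarith [sq_nonneg (D - 2 * d)]

theorem pf_BLK : T_BLK := by
  intro q CG hq0 hq1 hCG
  have hs : 0 < sg q := sg_pos hq0 hq1
  set C1 : ℝ := 256 / sg q * (1 + CG + sg q) with hC1
  have hC1p : 0 < C1 := by positivity
  refine ⟨C1 + (2 * C1 + 2) + (CG + sg q * (2 * C1 + 2)), by positivity, ?_⟩
  intro ω g p s0 b n _ hlow hGR
  set d2 : ℕ → ℝ := fun l =>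
    ((g (sb s0 b l + 64 ^ (b + 1)) - g (sb s0 b l) : ℤ) : ℝ) ^ 2 / 256 ^ b with hd2
  have h256 : (0 : ℝ) < 256 ^ b := by positivity
  have h4 : (0 : ℝ) < 4 ^ b := by positivity
  have hd2n : ∀ l, 0 ≤ d2 l := fun l => by rw [hd2]; positivity
  set S := ∑ l ∈ Finset.range n, d2 l with hS
  set E := ∑ l ∈ Finset.range n, exl q b ω (sb s0 b l) g with hE
  set DD := ∑ l ∈ Finset.range n, ((dwi p b (sb s0 b l) g : ℤ) : ℝ) ^ 2 with hDD
  have hn : (0 : ℝ) ≤ n := Nat.cast_nonneg n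
  have hS0 : 0 ≤ S := Finset.sum_nonneg (fun l _ => hd2n l)
  -- step 2
  have h1 : wt ω s0 (s0 + n * 64 ^ (b + 1)) g ≤
      n * (mu q * 64 ^ (b + 1)) - 3 * sg q / 512 * S * 4 ^ b + 4 ^ b * E := by
    rw [blk_sum]
    have : ∑ l ∈ Finset.range n, wt ω (sb s0 b l) (sb s0 b l + 64 ^ (b + 1)) g ≤
        ∑ l ∈ Finset.range n, (mu q * 64 ^ (b + 1) - 3 * sg q / 512 * d2 l * 4 ^ b +
          4 ^ b * exl q b ω (sb s0 b l) g) :=
      Finset.sum_le_sum (fun l _ => blk_one q b ω (sb s0 b l) g)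
    refine this.trans (le_of_eq ?_)
    simp only [Finset.sum_add_distrib, Finset.sum_sub_distrib, ← Finset.mul_sum,
      ← Finset.sum_mul, Finset.sum_const, Finset.card_range, nsmul_eq_mul]
    rw [← hS, ← hE]
    ring
  have h2 : 3 * sg q / 512 * S ≤ n + E := by
    have : (3 * sg q / 512 * S) * 4 ^ b ≤ (n + E) * 4 ^ b := by nlinarith
    exact le_of_mul_le_mul_right this h4
  have h3 : DD ≤ 2 * S + 2 * n := by
    have : DD ≤ ∑ l ∈ Finset.range n, (2 * d2 l + 2) :=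
      Finset.sum_le_sum (fun l _ => blk_dwi p b (sb s0 b l) g)
    refine this.trans (le_of_eq ?_)
    simp only [Finset.sum_add_distrib, ← Finset.mul_sum, Finset.sum_const, Finset.card_range,
      nsmul_eq_mul]
    rw [← hS]
    ring
  have h4' : E ≤ CG * n + sg q / 1024 * DD := by
    unfold GRs at hGR
    rw [Finset.sum_sub_distrib, ← Finset.mul_sum] at hGR
    linarith
  have h5 : E ≤ CG * n + sg q / 512 * S + sg q / 512 * n := by nlinarith
  have h6 : S ≤ C1 * n := by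
    have : sg q / 256 * S ≤ (1 + CG + sg q) * n := by nlinarith
    have h7 : S = 256 / sg q * (sg q / 256 * S) := by field_simp
    rw [h7, hC1, mul_assoc]
    exact mul_le_mul_of_nonneg_left this (by positivity)
  have e1 : ∑ l ∈ Finset.range n,
      ((g (sb s0 b l + 64 ^ (b + 1)) - g (sb s0 b l) : ℤ) : ℝ) ^ 2 = S * 256 ^ b := by
    rw [hS, Finset.sum_mul]
    refine Finset.sum_congr rfl (fun l _ => ?_)
    rw [hd2]; field_simp
  have hsC : 0 ≤ sg q * (2 * C1 + 2) := by positivity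
  refine ⟨?_, ?_, ?_⟩
  · rw [e1]
    refine mul_le_mul_of_nonneg_right (h6.trans ?_) h256.le
    exact mul_le_mul_of_nonneg_right (by linarith) hn
  · have : DD ≤ (2 * C1 + 2) * n := by linarith
    exact this.trans (mul_le_mul_of_nonneg_right (by linarith) hn)
  · have h8 : sg q * S ≤ sg q * (C1 * n) := mul_le_mul_of_nonneg_left h6 hs.le
    have h9 : 0 ≤ sg q * (C1 * n) := by positivity
    have h10 : 0 ≤ sg q * n := by positivity
    have : E ≤ (CG + sg q * (2 * C1 + 2)) * n := by nlinarith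
    exact this.trans (mul_le_mul_of_nonneg_right (by linarith) hn)

end Pool.Agent.H84.NT
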