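import Pool.Agent.H84.NT.Targets3

/-!
# Module CLA: upper bound between two visits of the strip of the small box
-/

open MeasureTheory ProbabilityTheory
open scoped ENNReal

namespace Pool.Agent.H84.NT

open Pool.Agent.H99.NS Pool.Agent.H22.LPP Pool.Agent.H95.INS

theorem pf_CLA (h_CUT : T_CUT) (h_W : T_W) : T_CLA := by
  intro D ω ω' ok hag hev ho1 hexc
  obtain ⟨_, _, _, c4, c5, c6, _, _⟩ := h_CUT D ω ω' ok
  have hAw : 0 < D.A * D.w := by
    have h1 := ok.A2; have h2 := ok.w1
    positivity
  have hX1 := ok.X1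
  have hX1' : 16 * (D.A * D.w) ≤ D.X := by rw [← mul_assoc]; exact hX1
  have key : ∀ m : ℕ, ∀ (s t : ℤ) (g : ℤ → ℤ), (t - s).toNat = m → -(4 * D.n) ≤ s → s ≤ t →
      t ≤ 4 * D.n → IsPath s t g → |g s| ≤ D.A * D.w → |g t| ≤ D.A * D.w →
      wt ω s t g ≤ mu D.q * ((t - s : ℤ) : ℝ) + D.Y * D.f := by
    intro m
    induction m using Nat.strong_induction_on with
    | _ m ih =>
      intro s t g hm h1 h2 h3 hp hs ht
      by_cases hc : ∀ r, s ≤ r → r ≤ t → |g r| < 2 * D.X
      · have e := c4 s t g (fun r hr1 hr2 _ _ => hc r hr1.le hr2)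
        rw [← e]
        exact (h_W D (cutS D ω) (cutS D ω') ok (c5 hag) (c6 hev).cu ho1 s t g h1 h2 h3 hp
          hs ht).1
      · push Not at hc
        obtain ⟨r, hr1, hr2, hrX⟩ := hc
        obtain ⟨a, ⟨ha1, ha2, ha3⟩, hamax⟩ := Int.exists_greatest_of_bdd
          (P := fun u => s ≤ u ∧ u ≤ r ∧ |g u| ≤ D.A * D.w) ⟨r, fun z hz => hz.2.1⟩
          ⟨s, le_rfl, hr1, hs⟩
        obtain ⟨b, ⟨hb1, hb2, hb3⟩, hbmin⟩ := Int.exists_least_of_bdd
          (P := fun u => r ≤ u ∧ u ≤ t ∧ |g u| ≤ D.A * D.w) ⟨r, fun z hz => hz.1⟩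
          ⟨t, hr2, le_rfl, ht⟩
        have har : a ≠ r := by rintro rfl; omega
        have hbr : b ≠ r := by rintro rfl; omega
        have hmid : ∀ u, a < u → u < b → D.A * D.w < |g u| := by
          intro u hu1 hu2
          by_contra hcon
          rw [not_lt] at hcon
          rcases le_total u r with hur | hur
          · have := hamax u ⟨by omega, hur, hcon⟩
            omega
          · have := hbmin u ⟨hur, by omega, hcon⟩
            omega
        have hlast : D.A * D.w ≤ |g b| := by
          have hb' := hmid (b - 1) (by omega) (by omega)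
          have hst := hp (b - 1) (by omega) (by omega)
          rw [sub_add_cancel] at hst
          rcases le_total 0 (g (b - 1)) with h0 | h0
          · rw [abs_of_nonneg h0] at hb'
            exact le_abs.2 (Or.inl (by omega))
          · rw [abs_of_nonpos h0] at hb'
            exact le_abs.2 (Or.inr (by omega))
        have hpa : IsPath s a g := fun u hu1 hu2 => hp u hu1 (by omega)
        have hpm : IsPath a b g := fun u hu1 hu2 => hp u (by omega) (by omega)
        have hpb : IsPath b t g := fun u hu1 hu2 => hp u (by omega) hu2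
        have hwm : wt ω a b g = wt ω' a b g := by
          refine wt_congr (fun u hu1 hu2 => ?_)
          refine hag _ ?_
          rintro ⟨_, _, hu3⟩
          simp only at hu3
          rcases eq_or_lt_of_le hu2 with h | h
          · rw [h] at hu3; omega
          · have := hmid u hu1 h
            omega
        have hA := ih (a - s).toNat (by omega) s a g rfl h1 ha1 (by omega) hpa hs ha3
        have hB := ih (t - b).toNat (by omega) b t g rfl (by omega) hb2 h3 hpb hb3 ht
        have hM := hexc a b g (by omega) (by omega) (by omega) hpm ha3 hb3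
          ⟨r, ha2, hb1, hrX⟩
        have hadd1 := wt_add ω (s := s) (m := a) (t := t) ha1 (by omega) g
        have hadd2 := wt_add ω (s := a) (m := b) (t := t) (by omega) hb2 g
        have hcast : ((t - s : ℤ) : ℝ) = ((a - s : ℤ) : ℝ) + ((b - a : ℤ) : ℝ) +
            ((t - b : ℤ) : ℝ) := by push_cast; ring
        rw [hcast, mul_add, mul_add, hadd1, hadd2, hwm]
        linarith
  intro s t g h1 h2 h3 hp hs ht
  exact key _ s t g rfl h1 h2 h3 hp hs ht

end Pool.Agent.H84.NT
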