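import Pool.Agent.H84.NT.Targets3

/-!
# Module EXC: excursions out of the tube lose a lot
-/

open MeasureTheory ProbabilityTheory
open scoped ENNReal

namespace Pool.Agent.H84.NT

open Pool.Agent.H99.NS Pool.Agent.H22.LPP Pool.Agent.H95.INS

/-- The upper bound of the large scale in the original coordinates. -/
theorem exc_o1s {Da : Dat} {z : Site} {ω' : Env} (h : O1S Da (shiftE z ω')) {s t : ℤ} {g : ℤ → ℤ}
    (h1 : -(256 * Da.n) ≤ s - z.1) (h2 : s ≤ t) (h3 : t - z.1 ≤ 256 * Da.n)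
    (hp : IsPath s t g) (h4 : |g s - z.2| ≤ Da.X) (h5 : |g t - z.2| ≤ Da.X) :
    wt ω' s t g ≤ sp Da.q (8 * Da.n / 200) s t g +
      Da.K * Da.f * (1 + max |((g s - z.2 : ℤ) : ℝ)| |((g t - z.2 : ℤ) : ℝ)| / Da.w) := by
  have hp' : IsPath (s - z.1) (t - z.1) (fun r => g (r + z.1) - z.2) := by
    intro r hr1 hr2
    have := hp (r + z.1) (by omega) (by omega)
    rw [show r + z.1 + 1 = r + 1 + z.1 by ring] at this
    simp only
    omega
  have e1 : s - z.1 + z.1 = s := by ring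
  have e2 : t - z.1 + z.1 = t := by ring
  have := h (s - z.1) (t - z.1) (fun r => g (r + z.1) - z.2) h1 (by omega) h3 hp'
    (by rw [e1]; exact h4) (by rw [e2]; exact h5)
  rw [wt_shift] at this
  unfold sp at this ⊢
  simp only [e1, e2, sub_add_cancel] at this
  have e3 : t - z.1 - (s - z.1) = t - s := by ring
  have e4 : g t - z.2 - (g s - z.2) = g t - g s := by ring
  rw [e3, e4] at this
  exact this

/-- One half of an excursion. -/
theorem exc_half {D Da : Dat} {z : Site} {ω' : Env} (hr : Rel D Da z)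
    (h : O1S Da (shiftE z ω')) {s t : ℤ} {g : ℤ → ℤ} (h1 : -(4 * D.n) ≤ s) (h2 : s ≤ t)
    (h3 : t ≤ 4 * D.n) (hp : IsPath s t g) (h4 : |g s| ≤ 2 * D.X) (h5 : |g t| ≤ 2 * D.X)
    (h6 : D.X ≤ |g t - g s|) :
    wt ω' s t g ≤ mu D.q * ((t - s : ℤ) : ℝ) -
      49 * sg D.q * ((D.X : ℝ) / Da.w) ^ 2 * Da.f := by
  obtain ⟨okD, okA, qq, ev, t1, t2, nn, lat, tub, xx, sep, yh, ka⟩ := hr
  have hn := okD.n1
  have hz2 : |z.2| ≤ D.X := by
    have h16 : 0 ≤ 16 * Da.A * Da.w := by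
      have := okA.A2; have := okA.w1; positivity
    omega
  have hz2' := abs_le.1 hz2
  have h4' := abs_le.1 h4
  have h5' := abs_le.1 h5
  have hX3 : |g s - z.2| ≤ 3 * D.X := abs_le.2 ⟨by omega, by omega⟩
  have hX4 : |g t - z.2| ≤ 3 * D.X := abs_le.2 ⟨by omega, by omega⟩
  have hmain := exc_o1s h (s := s) (t := t) (g := g) (by omega) h2 (by omega) hp
    (hX3.trans xx) (hX4.trans xx)
  have hs : 0 < sg D.q := sg_pos okD.q0 okD.q1
  have hw1 : (1 : ℝ) ≤ Da.w := by exact_mod_cast okA.w1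
  have hwp : (0 : ℝ) < Da.w := by linarith
  have hf := okA.f0
  have hn1 : (1 : ℝ) ≤ D.n := by exact_mod_cast okD.n1
  have hna : (200 : ℝ) * D.n ≤ Da.n := by exact_mod_cast nn
  have hnap : (0 : ℝ) < Da.n := by linarith
  have hA2 : (2 : ℝ) ≤ Da.A := by exact_mod_cast okA.A2
  set xi : ℝ := (D.X : ℝ) / Da.w with hxi
  have hXr : (16 : ℝ) * Da.A * Da.w ≤ D.X := by
    have : 16 * Da.A * Da.w ≤ D.X := by have := abs_nonneg z.2; omega
    exact_mod_cast this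
  have hxi1 : 16 * (Da.A : ℝ) ≤ xi := by rw [hxi, le_div_iff₀ hwp]; linarith
  have hXxi : (D.X : ℝ) = xi * Da.w := by rw [hxi]; field_simp
  -- the penalty
  have hdx : (D.X : ℝ) ^ 2 ≤ ((g t - g s : ℤ) : ℝ) ^ 2 := by
    have h7 : (D.X : ℝ) ≤ |((g t - g s : ℤ) : ℝ)| := by exact_mod_cast h6
    have hxi0 : 0 ≤ xi := by linarith
    have h8 : (0 : ℝ) ≤ D.X := by rw [hXxi]; positivity
    rw [← sq_abs ((g t - g s : ℤ) : ℝ)]
    exact pow_le_pow_left₀ h8 h7 2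
  have hsc := okA.sc
  have hden : (0 : ℝ) < ((t - s : ℤ) : ℝ) + 8 * Da.n / 200 := by
    have : (0 : ℝ) ≤ ((t - s : ℤ) : ℝ) := by exact_mod_cast sub_nonneg.2 h2
    positivity
  have hden2 : ((t - s : ℤ) : ℝ) + 8 * Da.n / 200 ≤ 8 * Da.n / 100 := by
    have : t - s ≤ 8 * D.n := by omega
    have h7 : ((t - s : ℤ) : ℝ) ≤ 8 * D.n := by exact_mod_cast this
    linarith
  have hpen : 50 * sg D.q * xi ^ 2 * Da.f ≤
      sg D.q / 2 * ((g t - g s : ℤ) : ℝ) ^ 2 / (((t - s : ℤ) : ℝ) + 8 * Da.n / 200) := by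
    rw [le_div_iff₀ hden]
    have h9 : 50 * sg D.q * xi ^ 2 * Da.f * (((t - s : ℤ) : ℝ) + 8 * Da.n / 200) ≤
        50 * sg D.q * xi ^ 2 * Da.f * (8 * Da.n / 100) :=
      mul_le_mul_of_nonneg_left hden2 (by positivity)
    have h10 : 50 * sg D.q * xi ^ 2 * Da.f * (8 * Da.n / 100) = sg D.q / 2 * (D.X : ℝ) ^ 2 := by
      rw [hXxi, mul_pow, hsc]; ring
    have h11 : sg D.q / 2 * (D.X : ℝ) ^ 2 ≤ sg D.q / 2 * ((g t - g s : ℤ) : ℝ) ^ 2 :=
      mul_le_mul_of_nonneg_left hdx (by positivity)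
    linarith
  -- the constant
  have hK : Da.K * (1 + 16 * Da.A) ≤ sg D.q * Da.A ^ 2 / 4000 := by
    have c2 := okA.c2; have c3 := okA.c3; have c4 := okA.c4
    rw [qq] at c4
    linarith
  have hK0 := okA.K0
  have hK1 : Da.K ≤ sg D.q * xi / 1024000 := by
    have h12 : Da.K * (16 * Da.A) ≤ sg D.q * Da.A ^ 2 / 4000 := by nlinarith only [ka, hs, hK]
    have h13 : Da.A * (Da.K * 64000) ≤ (Da.A : ℝ) * (sg D.q * Da.A) := by nlinarith only [ka, hs, hK]
    have h14 := le_of_mul_le_mul_left h13 (by linarith)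
    have h15 : sg D.q * (16 * Da.A) ≤ sg D.q * xi := mul_le_mul_of_nonneg_left hxi1 hs.le
    linarith
  have hmax : max |((g s - z.2 : ℤ) : ℝ)| |((g t - z.2 : ℤ) : ℝ)| / Da.w ≤ 3 * xi := by
    rw [div_le_iff₀ hwp, mul_assoc, ← hXxi]
    refine max_le ?_ ?_
    · exact_mod_cast hX3
    · exact_mod_cast hX4
  have hxi32 : 32 ≤ xi := by linarith
  have herr : Da.K * Da.f *
      (1 + max |((g s - z.2 : ℤ) : ℝ)| |((g t - z.2 : ℤ) : ℝ)| / Da.w) ≤
      sg D.q * xi ^ 2 * Da.f := by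
    have h16 : Da.K * (1 + max |((g s - z.2 : ℤ) : ℝ)| |((g t - z.2 : ℤ) : ℝ)| / Da.w) ≤
        sg D.q * xi / 1024000 * (4 * xi) := by
      have h17 : 1 + max |((g s - z.2 : ℤ) : ℝ)| |((g t - z.2 : ℤ) : ℝ)| / Da.w ≤ 4 * xi := by
        linarith
      have h18 : 0 ≤ 1 + max |((g s - z.2 : ℤ) : ℝ)| |((g t - z.2 : ℤ) : ℝ)| / Da.w := by
        positivity
      exact mul_le_mul hK1 h17 h18 (by positivity)
    have h19 : sg D.q * xi / 1024000 * (4 * xi) ≤ sg D.q * xi ^ 2 := by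
      have : 0 ≤ sg D.q * xi ^ 2 := by positivity
      nlinarith only [this]
    have h20 := mul_le_mul_of_nonneg_right (h16.trans h19) hf.le
    linarith
  unfold sp at hmain
  rw [qq] at hmain
  linarith

theorem pf_EXC : T_EXC := by
  intro D Da z ω' hr h r1 r2 g hr1 hr12 hr2 hp hg1 hg2 hex
  have okD := hr.okD
  have hX1 := okD.X1
  have hAw : 0 ≤ D.A * D.w := by
    have := okD.A2; have := okD.w1; positivity
  have hX1' : 16 * (D.A * D.w) ≤ D.X := by rw [← mul_assoc]; exact hX1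
  have hXpos : 0 < D.X := by
    have h1 := okD.A2; have h2 := okD.w1
    have : 0 < D.A * D.w := by positivity
    omega
  obtain ⟨r, ⟨hra, hrb, hrX⟩, hmin⟩ := Int.exists_least_of_bdd
    (P := fun r => r1 ≤ r ∧ r ≤ r2 ∧ 2 * D.X ≤ |g r|) ⟨r1, fun z hz => hz.1⟩ hex
  have hne : r1 ≠ r := by
    rintro rfl; omega
  have hprev : |g (r - 1)| < 2 * D.X := by
    by_contra hcon
    have := hmin (r - 1) ⟨by omega, by omega, not_lt.1 hcon⟩
    omega
  have hstep := hp (r - 1) (by omega) (by omega)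
  rw [sub_add_cancel] at hstep
  have hgr : |g r| ≤ 2 * D.X := by
    rw [abs_lt] at hprev
    rw [abs_le]
    omega
  have hd1 : D.X ≤ |g r - g r1| := by
    have := abs_sub_abs_le_abs_sub (g r) (g r1)
    omega
  have hd2 : D.X ≤ |g r2 - g r| := by
    have := abs_sub_abs_le_abs_sub (g r) (g r2)
    rw [abs_sub_comm] at this
    omega
  have hp1 : IsPath r1 r g := fun u hu1 hu2 => hp u hu1 (by omega)
  have hp2 : IsPath r r2 g := fun u hu1 hu2 => hp u (by omega) hu2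
  have ha := exc_half hr h (s := r1) (t := r) (g := g) hr1 hra (by omega) hp1 (by omega) hgr hd1
  have hb := exc_half hr h (s := r) (t := r2) (g := g) (by omega) hrb hr2 hp2 hgr (by omega) hd2
  have hadd := wt_add ω' hra hrb g
  have hcast : ((r2 - r1 : ℤ) : ℝ) = ((r - r1 : ℤ) : ℝ) + ((r2 - r : ℤ) : ℝ) := by
    push_cast; ring
  -- numbers
  obtain ⟨_, okA, qq, ev, t1, t2, nn, lat, tub, xx, sep, yh, ka⟩ := hr
  have hs : 0 < sg D.q := sg_pos okD.q0 okD.q1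
  have hw1 : (1 : ℝ) ≤ Da.w := by exact_mod_cast okA.w1
  have hwp : (0 : ℝ) < Da.w := by linarith
  have hf := okA.f0
  have hA2 : (2 : ℝ) ≤ Da.A := by exact_mod_cast okA.A2
  set xi : ℝ := (D.X : ℝ) / Da.w with hxi
  have hXr : (16 : ℝ) * Da.A * Da.w ≤ D.X := by
    have : 16 * Da.A * Da.w ≤ D.X := by have := abs_nonneg z.2; omega
    exact_mod_cast this
  have hxi1 : 16 * (Da.A : ℝ) ≤ xi := by rw [hxi, le_div_iff₀ hwp]; linarith
  have hY : D.Y * D.f ≤ 98 * sg D.q * xi ^ 2 * Da.f := by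
    have c3 := okA.c3; have c4 := okA.c4
    rw [qq] at c4
    have h1 : Da.H ≤ sg D.q * Da.A ^ 2 / 4 := by linarith
    have h2 : (Da.A : ℝ) ^ 2 ≤ xi ^ 2 := pow_le_pow_left₀ (by linarith) (by linarith) 2
    have h3 : Da.H ≤ sg D.q * xi ^ 2 / 4 := by nlinarith only [c3, c4, hs, h2]
    have h4 : Da.H * Da.f ≤ sg D.q * xi ^ 2 / 4 * Da.f := mul_le_mul_of_nonneg_right h3 hf.le
    have h5 : 0 ≤ sg D.q * xi ^ 2 * Da.f := by positivity
    linarith
  rw [hcast, mul_add, hadd]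
  linarith

end Pool.Agent.H84.NT
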