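import Pool.Agent.H44.NT.BLK

/-!
# Module FIC: half of the blocks are fine
-/

open MeasureTheory ProbabilityTheory
open scoped ENNReal

namespace Pool.Agent.H84.NT

open Pool.Agent.H99.NS Pool.Agent.H22.LPP Pool.Agent.H95.INS

theorem fic_exl_nonneg (q : ℝ) (b : ℕ) (ω : Env) (s : ℤ) (g : ℤ → ℤ) : 0 ≤ exl q b ω s g :=
  le_max_left _ _

open Classical in
theorem fic_cheb (n : ℕ) (a : ℕ → ℝ) (c : ℝ) (h0 : ∀ l, 0 ≤ a l) :
    (((Finset.range n).filter (fun l => c < a l)).card : ℝ) * c ≤ ∑ l ∈ Finset.range n, a l := by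
  calc (((Finset.range n).filter (fun l => c < a l)).card : ℝ) * c
      = ∑ l ∈ (Finset.range n).filter (fun l => c < a l), c := by
        rw [Finset.sum_const, nsmul_eq_mul]
    _ ≤ ∑ l ∈ (Finset.range n).filter (fun l => c < a l), a l :=
        Finset.sum_le_sum (fun l hl => (Finset.mem_filter.1 hl).2.le)
    _ ≤ ∑ l ∈ Finset.range n, a l :=
        Finset.sum_le_sum_of_subset_of_nonneg (Finset.filter_subset _ _) (fun l _ _ => h0 l)

theorem pf_FIC : T_FIC := by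
  classical
  intro q Cd hq0 hq1 hCd
  have hs : 0 < sg q := sg_pos hq0 hq1
  obtain ⟨N, hN⟩ := exists_nat_ge Cd
  set Cf : ℤ := (N : ℤ) + 1 with hCf
  have hCf1 : (1 : ℝ) ≤ (Cf : ℝ) := by rw [hCf]; push_cast; linarith [Nat.cast_nonneg (α := ℝ) N]
  have hCf2 : Cd ≤ (Cf : ℝ) := by rw [hCf]; push_cast; linarith
  have hCf3 : Cd ≤ (Cf : ℝ) ^ 2 := by nlinarith
  set K1 : ℝ := 1 + 4 * Cd + sg q * (Cf : ℝ) ^ 2 / 2 with hK1
  have hsC : 0 ≤ sg q * (Cf : ℝ) ^ 2 / 2 := by positivity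
  have hK1a : 1 ≤ K1 := by rw [hK1]; linarith
  refine ⟨K1, Cf, hK1a, by rw [hCf]; positivity, ?_⟩
  intro ω g s0 b n hdx hex
  set G := (Finset.range n).filter
      (fun l : ℕ => Fine q K1 Cf (b + 1) ω (s0 + l * 64 ^ (b + 1)) g) with hG
  set X : ℕ → ℝ := fun l =>
    ((g (sb s0 b l + 64 ^ (b + 1)) - g (sb s0 b l) : ℤ) : ℝ) ^ 2 with hX
  set B1 := (Finset.range n).filter (fun l => K1 < exl q b ω (sb s0 b l) g) with hB1
  set B2 := (Finset.range n).filter (fun l => ((Cf : ℝ) * 16 ^ (b + 1)) ^ 2 < X l) with hB2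
  have h256 : (0 : ℝ) < 256 ^ b := by positivity
  have h4 : (0 : ℝ) < 4 ^ b := by positivity
  have hn : (0 : ℝ) ≤ n := Nat.cast_nonneg n
  have e16 : ((Cf : ℝ) * 16 ^ (b + 1)) ^ 2 = 256 * (Cf : ℝ) ^ 2 * 256 ^ b := by
    rw [mul_pow, ← pow_mul, show (b + 1) * 2 = 2 * b + 2 by ring, pow_add, pow_mul]
    norm_num; ring
  have hc1 : (B1.card : ℝ) * 4 ≤ n := by
    have h := fic_cheb n (fun l => exl q b ω (sb s0 b l) g) K1
      (fun l => fic_exl_nonneg q b ω _ g)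
    have h' : (B1.card : ℝ) * K1 ≤ Cd * n := h.trans hex
    have h2 : (B1.card : ℝ) * (4 * Cd) ≤ (B1.card : ℝ) * K1 :=
      mul_le_mul_of_nonneg_left (by rw [hK1]; linarith) (Nat.cast_nonneg _)
    have h3 : Cd * ((B1.card : ℝ) * 4) ≤ Cd * n := by nlinarith
    exact le_of_mul_le_mul_left h3 hCd
  have hc2 : (B2.card : ℝ) * 4 ≤ n := by
    have h := fic_cheb n X (((Cf : ℝ) * 16 ^ (b + 1)) ^ 2) (fun l => by rw [hX]; positivity)
    have h' : (B2.card : ℝ) * (256 * (Cf : ℝ) ^ 2 * 256 ^ b) ≤ Cd * n * 256 ^ b := by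
      rw [← e16]; exact h.trans hdx
    have h1 : (B2.card : ℝ) * (256 * (Cf : ℝ) ^ 2) ≤ Cd * n := by
      have : ((B2.card : ℝ) * (256 * (Cf : ℝ) ^ 2)) * 256 ^ b ≤ Cd * n * 256 ^ b := by
        rw [mul_assoc]; exact h'
      exact le_of_mul_le_mul_right this h256
    have h2 : (B2.card : ℝ) * (4 * Cd) ≤ (B2.card : ℝ) * (256 * (Cf : ℝ) ^ 2) :=
      mul_le_mul_of_nonneg_left (by nlinarith) (Nat.cast_nonneg _)
    have h3 : Cd * ((B2.card : ℝ) * 4) ≤ Cd * n := by nlinarith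
    exact le_of_mul_le_mul_left h3 hCd
  have hcov : Finset.range n ⊆ G ∪ (B1 ∪ B2) := by
    intro l hl
    by_cases h1 : l ∈ B1
    · exact Finset.mem_union_right _ (Finset.mem_union_left _ h1)
    by_cases h2 : l ∈ B2
    · exact Finset.mem_union_right _ (Finset.mem_union_right _ h2)
    refine Finset.mem_union_left _ ?_
    rw [hG, Finset.mem_filter]
    refine ⟨hl, ?_⟩
    have h1' : exl q b ω (sb s0 b l) g ≤ K1 := by
      by_contra h; exact h1 (Finset.mem_filter.2 ⟨hl, not_le.1 h⟩)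
    have h2' : X l ≤ ((Cf : ℝ) * 16 ^ (b + 1)) ^ 2 := by
      by_contra h; exact h2 (Finset.mem_filter.2 ⟨hl, not_le.1 h⟩)
    have hsb : s0 + (l : ℤ) * 64 ^ (b + 1) = sb s0 b l := rfl
    rw [hsb]
    constructor
    · have h3 : (g (sb s0 b l + 64 ^ (b + 1)) - g (sb s0 b l)) ^ 2 ≤
          (Cf * 16 ^ (b + 1)) ^ 2 := by
        have h2'' : ((g (sb s0 b l + 64 ^ (b + 1)) - g (sb s0 b l) : ℤ) : ℝ) ^ 2 ≤
          ((Cf : ℝ) * 16 ^ (b + 1)) ^ 2 := h2'
        exact_mod_cast h2''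
      have hCf0 : 0 ≤ Cf * 16 ^ (b + 1) := by
        have : (0 : ℤ) ≤ Cf := by rw [hCf]; positivity
        positivity
      exact abs_le_of_sq_le_sq h3 hCf0
    · have h3 := blk_parS q 1 b (sb s0 b l) g
      rw [parS_one] at h3
      have h4' := blk_one q b ω (sb s0 b l) g
      have h5 : X l / 256 ^ b ≤ 256 * (Cf : ℝ) ^ 2 := by
        rw [div_le_iff₀ h256, ← e16]; exact h2'
      rw [h3]
      set d2 := ((g (sb s0 b l + 64 ^ (b + 1)) - g (sb s0 b l) : ℤ) : ℝ) ^ 2 / 256 ^ b with hd2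
      have h5' : d2 ≤ 256 * (Cf : ℝ) ^ 2 := h5
      have h6 : 4 ^ b * exl q b ω (sb s0 b l) g ≤ 4 ^ b * K1 :=
        mul_le_mul_of_nonneg_left h1' h4.le
      have h7 : sg q / 512 * d2 ≤ K1 := by
        have : sg q / 512 * d2 ≤ sg q / 512 * (256 * (Cf : ℝ) ^ 2) :=
          mul_le_mul_of_nonneg_left h5' (by positivity)
        rw [hK1]; linarith
      have h8 : sg q / 512 * d2 * 4 ^ b ≤ K1 * 4 ^ b := mul_le_mul_of_nonneg_right h7 h4.le
      have e4 : (4 : ℝ) ^ (b + 1) = 4 * 4 ^ b := by rw [pow_succ]; ring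
      rw [e4]
      linarith
  have hcard : n ≤ G.card + (B1.card + B2.card) := by
    have h1 := Finset.card_le_card hcov
    rw [Finset.card_range] at h1
    exact h1.trans ((Finset.card_union_le _ _).trans
      (Nat.add_le_add_left (Finset.card_union_le _ _) _))
  have hc1' : B1.card * 4 ≤ n := by exact_mod_cast hc1
  have hc2' : B2.card * 4 ≤ n := by exact_mod_cast hc2
  have hfin : n ≤ 2 * G.card := by omega
  convert hfin

end Pool.Agent.H84.NT
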